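import Pool.Agent.H76AbSq.Word

/-! A linear lower bound for the least number of non-equivalent abelian squares in a binary word of
length `n` (Fraenkel, Paterson and Simpson conjecture the value `n / 4`, rounded down). -/

namespace Pool.Agent.Results.MP_5d630e_co.LinearLowerBound

open H76AbSq Finset

/-- The Parikh vector of a binary word (letters `true` and `false`). -/
def parikh (u : List Bool) : ℕ × ℕ := (u.count true, u.count false)

/-- The Parikh vectors of the first halves of the abelian squares `u ++ v` that occur as factors of
the word `w`; they correspond to the equivalence classes of abelian squares of `w`. -/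
def squareClasses (w : List Bool) : Set (ℕ × ℕ) :=
  {q | ∃ s u v t : List Bool, w = s ++ u ++ v ++ t ∧ u ≠ [] ∧ v ≠ [] ∧ parikh u = parikh v ∧
    parikh u = q}

/-- The number of non-equivalent abelian squares in `w`. -/
noncomputable def numClasses (w : List Bool) : ℕ := (squareClasses w).ncard

/-- The least number of non-equivalent abelian squares in a binary word of length `n`. -/
noncomputable def MNL (n : ℕ) : ℕ := sInf {m | ∃ w : List Bool, w.length = n ∧ numClasses w = m}

theorem finite_squareClasses (w : List Bool) : (squareClasses w).Finite := by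
  refine ((range (w.length + 1) ×ˢ range (w.length + 1)).finite_toSet).subset ?_
  rintro q ⟨s, u, v, t, hw, -, -, -, rfl⟩
  have h1 := List.count_le_length (a := true) (l := u)
  have h2 := List.count_le_length (a := false) (l := u)
  have h3 : w.length = s.length + u.length + v.length + t.length := by
    rw [hw]; simp only [List.length_append]
  simp only [coe_product, coe_range, Set.mem_prod, Set.mem_Iio, parikh]
  omega

theorem count_true_add_count_false (w : List Bool) : w.count true + w.count false = w.length := by
  induction w with
  | nil => simp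
  | cons c w ih => cases c <;> simp <;> omega

/-- a type of the staircase gives an abelian square -/
theorem type_square (x : Bool) (w : List Bool) (e d k : ℤ) (he : 1 ≤ e) (h0 : 0 ≤ k - e)
    (h1 : k + e ≤ w.count x) (hT : Ty (stair x w) k e d) :
    0 ≤ d ∧ ∃ s u v t : List Bool, w = s ++ u ++ v ++ t ∧ u ≠ [] ∧ v ≠ [] ∧
      (u.count x : ℤ) = e ∧ (u.count (!x) : ℤ) = d ∧ (v.count x : ℤ) = e ∧
      (v.count (!x) : ℤ) = d := by
  obtain ⟨y0, y1, y2, a1, a2, b1, b2, c1, c2, d1, d2⟩ := hT
  have hd : 0 ≤ d := by
    have := stair_mono x w (show k - e + 1 ≤ k by omega)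
    omega
  refine ⟨hd, ?_⟩
  obtain ⟨t0, ht0, p0, q0⟩ := stair_point x w (k - e) y0 h0 (by omega) a1 a2
  obtain ⟨t1, ht1, p1, q1⟩ := stair_point x w k y1 (by omega) (by omega) b1 b2
  obtain ⟨t2, ht2, p2, q2⟩ := stair_point x w (k + e) y2 (by omega) h1 c1 c2
  have hlen : ∀ t : ℕ, t ≤ w.length →
      ((w.take t).count x : ℤ) + (w.take t).count (!x) = t := by
    intro t ht
    have := count_true_add_count_false (w.take t)
    rw [List.length_take, min_eq_left ht] at this
    cases x <;> simp only [Bool.not_true, Bool.not_false] <;> omega
  have l0 := hlen t0 ht0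
  have l1 := hlen t1 ht1
  have l2 := hlen t2 ht2
  have h01 : t0 < t1 := by omega
  have h12 : t1 < t2 := by omega
  -- factorization
  have f2 : w = w.take t2 ++ w.drop t2 := (List.take_append_drop t2 w).symm
  have f1 : w.take t2 = w.take t1 ++ (w.take t2).drop t1 := by
    conv_lhs => rw [← List.take_append_drop t1 (w.take t2)]
    rw [List.take_take, min_eq_left h12.le]
  have f0 : w.take t1 = w.take t0 ++ (w.take t1).drop t0 := by
    conv_lhs => rw [← List.take_append_drop t0 (w.take t1)]
    rw [List.take_take, min_eq_left h01.le]
  have c1' : ∀ z, (w.take t2).count z = (w.take t1).count z + ((w.take t2).drop t1).count z := by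
    intro z
    conv_lhs => rw [f1]
    rw [List.count_append]
  have c0' : ∀ z, (w.take t1).count z = (w.take t0).count z + ((w.take t1).drop t0).count z := by
    intro z
    conv_lhs => rw [f0]
    rw [List.count_append]
  have r1 := c1' x
  have r2 := c1' (!x)
  have r3 := c0' x
  have r4 := c0' (!x)
  refine ⟨w.take t0, (w.take t1).drop t0, (w.take t2).drop t1, w.drop t2, ?_, ?_, ?_, by omega,
    by omega, by omega, by omega⟩
  · conv_lhs => rw [f2, f1, f0]
  · intro h
    rw [h] at r3
    simp at r3
    omega
  · intro h
    rw [h] at r1
    simp at r1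
    omega

theorem letter_bound (x : Bool) (w : List Bool) :
    (w.count x : ℤ) ≤ 305600 * ((numClasses w : ℤ) + 1) := by
  classical
  set S := (finite_squareClasses w).toFinset with hS
  set g : ℕ × ℕ → ℤ × ℤ := fun q => if x then ((q.1 : ℤ), (q.2 : ℤ)) else ((q.2 : ℤ), (q.1 : ℤ))
    with hg
  have hcard : numClasses w = S.card := Set.ncard_eq_toFinset_card _ _
  have h := top (stair_mono x w) (A := w.count x) (S.image g) (by
    intro e d k he h0 h1 hT
    obtain ⟨hd, s, u, v, t, hw, hu, hv, u1, u2, v1, v2⟩ := type_square x w e d k he h0 h1 hT
    rw [mem_image]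
    refine ⟨parikh u, ?_, ?_⟩
    · rw [hS, Set.Finite.mem_toFinset]
      refine ⟨s, u, v, t, hw, hu, hv, ?_, rfl⟩
      cases x
      · simp only [Bool.not_false] at u2 v2
        simp only [parikh, Prod.mk.injEq]
        omega
      · simp only [Bool.not_true] at u2 v2
        simp only [parikh, Prod.mk.injEq]
        omega
    · cases x
      · simp only [Bool.not_false] at u2
        simp only [hg, parikh]
        simp [u1, u2]
      · simp only [Bool.not_true] at u2
        simp only [hg, parikh]
        simp [u1, u2])
  have h2 := card_image_le (s := S) (f := g)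
  rw [← hcard] at h2
  omega

theorem word_bound (w : List Bool) : w.length ≤ 611200 * (numClasses w + 1) := by
  have h1 := letter_bound true w
  have h2 := letter_bound false w
  have h3 := count_true_add_count_false w
  omega

/-- Every binary word of length `n` contains at least `n / 1222400` (rounded down) non-equivalent
abelian squares. -/
theorem result (n : ℕ) : n / 1222400 ≤ MNL n := by
  have hne : {m | ∃ w : List Bool, w.length = n ∧ numClasses w = m}.Nonempty :=
    ⟨numClasses (List.replicate n true), List.replicate n true, by simp, rfl⟩
  obtain ⟨w, hw, hm⟩ := Nat.sInf_mem hne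
  have h := word_bound w
  have h2 : MNL n = numClasses w := hm.symm
  rw [h2]
  omega

end Pool.Agent.Results.MP_5d630e_co.LinearLowerBound
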