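import Pool.Agent.ABN97.Data

/-!
The conjecture of Fraenkel, Paterson and Simpson on the least number of non-equivalent abelian
squares in a binary word is false: `MNL n < n / 4` (rounded down) for all `n ≥ 423920`, and
`MNL n ≤ 13 * (n / 56) + 7569` for all `n`.
-/

namespace Pool.Agent.Results.MP_5d630e_co.NotQuarter

open Pool.Agent.ABN97

/-- Let `MNL n` be the least number of non-equivalent abelian squares in a binary word of length
`n` (the number of Parikh vectors of the halves of its abelian squares). Then `MNL n` is at most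
`13 * ⌊n / 56⌋ + 7569` for every `n`, hence strictly smaller than `⌊n / 4⌋` for all
`n ≥ 423920`; in particular it is not true that `MNL n = ⌊n / 4⌋` for all positive `n`. -/
theorem result :
    (∀ w : List Bool, (squareClasses w).Finite) ∧
    (∀ n : ℕ, MNL n ≤ 13 * (n / 56) + 7569) ∧
    (∀ n : ℕ, 423920 ≤ n → MNL n < n / 4) ∧
    ¬ ∀ n : ℕ, 1 ≤ n → MNL n = n / 4 :=
  ⟨finite_squareClasses, MNL_leT, fun _ hn => MNL_ltT hn,
    fun h => (MNL_ltT le_rfl).ne (h 423920 (by norm_num))⟩

end Pool.Agent.Results.MP_5d630e_co.NotQuarter
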